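import Pool.Agent.E8helper8.EC.Stm

/-!
# Project EC (helper8): extension over `Δ^n × I` after a null-homotopic map
-/

set_option autoImplicit false

open unitInterval Topology

namespace Pool.Agent.E8helper77.EC

open Pool.Agent.E8helper8.EC

variable {n : ℕ}

theorem dl_nonneg (x : Dl n) (i : Fin (n + 1)) : 0 ≤ x i := x.2.1 i

theorem dl_sum (x : Dl n) : ∑ i, x i = 1 := x.2.2

/-- the point `(1 - r) c + r x` of the simplex, `c` the barycentre -/
noncomputable def mv (r : I) (x : Dl n) : Dl n :=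
  ⟨fun i => (1 - (r : ℝ)) / (n + 1) + r * x i, fun i => by
    have h1 := r.2.1
    have h2 := r.2.2
    have h3 := dl_nonneg x i
    have h4 : 0 ≤ (1 - (r : ℝ)) / (n + 1) := div_nonneg (by linarith) (by positivity)
    nlinarith [mul_nonneg h1 h3], by
    rw [Finset.sum_add_distrib, ← Finset.mul_sum, dl_sum, Finset.sum_const, Finset.card_univ,
      Fintype.card_fin, nsmul_eq_mul]
    push_cast
    field_simp
    ring⟩

theorem mv_apply (r : I) (x : Dl n) (i : Fin (n + 1)) :
    mv r x i = (1 - (r : ℝ)) / (n + 1) + r * x i := rfl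

/-- the point `(1 - r) / 2 + r t` -/
noncomputable def mt (r t : I) : I :=
  ⟨(1 - (r : ℝ)) / 2 + r * t, by
    have h1 := r.2.1
    have h2 := r.2.2
    have h3 := t.2.1
    have h4 := t.2.2
    constructor
    · nlinarith [mul_nonneg h1 h3]
    · nlinarith [mul_nonneg h1 (sub_nonneg.2 h4)]⟩

theorem mt_coe (r t : I) : (mt r t : ℝ) = (1 - (r : ℝ)) / 2 + r * t := rfl

/-- the cone map -/
noncomputable def qq (n : ℕ) (p : Bd n × I) : Dl n × I := (mv p.2 p.1.1.1, mt p.2 p.1.1.2)

theorem qq_cont (n : ℕ) : Continuous (qq n) := by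
  unfold qq mv mt
  refine Continuous.prodMk (Continuous.subtype_mk (continuous_pi fun i => ?_) _)
    (Continuous.subtype_mk ?_ _)
  · have h1 : Continuous fun p : Bd n × I => (p.1.1.1 : Dl n).1 i :=
      (continuous_apply i).comp (continuous_subtype_val.comp
        (continuous_fst.comp (continuous_subtype_val.comp continuous_fst)))
    have h2 : Continuous fun p : Bd n × I => (p.2 : ℝ) := continuous_subtype_val.comp continuous_snd
    exact ((continuous_const.sub h2).div_const _).add (h2.mul h1)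
  · have h1 : Continuous fun p : Bd n × I => (p.1.1.2 : ℝ) :=
      continuous_subtype_val.comp (continuous_snd.comp (continuous_subtype_val.comp continuous_fst))
    have h2 : Continuous fun p : Bd n × I => (p.2 : ℝ) := continuous_subtype_val.comp continuous_snd
    exact ((continuous_const.sub h2).div_const _).add (h2.mul h1)

theorem bd_closed (n : ℕ) : IsClosed (Bd n) := by
  have h : Bd n = (⋃ i : Fin (n + 1), {p : Dl n × I | p.1 i = 0}) ∪ ({p | p.2 = 0} ∪ {p | p.2 = 1}) := by
    ext p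
    simp [Bd]
  rw [h]
  refine IsClosed.union (isClosed_iUnion_of_finite fun i => ?_) (IsClosed.union ?_ ?_)
  · have h1 : Continuous fun p : Dl n × I => (p.1 : Dl n).1 i :=
      (continuous_apply i).comp (continuous_subtype_val.comp continuous_fst)
    exact isClosed_eq h1 continuous_const
  · exact isClosed_eq continuous_snd continuous_const
  · exact isClosed_eq continuous_snd continuous_const

theorem r_le {p p' : Bd n} {r r' : I} (h : qq n (p, r) = qq n (p', r')) : (r : ℝ) ≤ r' := by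
  have hn : (0 : ℝ) < n + 1 := by positivity
  have h1 : ∀ i, (1 - (r : ℝ)) / (n + 1) + r * p.1.1 i = (1 - (r' : ℝ)) / (n + 1) + r' * p'.1.1 i := by
    intro i
    have := congrArg (fun z : Dl n × I => z.1 i) h
    exact this
  have h2 : (1 - (r : ℝ)) / 2 + r * p.1.2 = (1 - (r' : ℝ)) / 2 + r' * p'.1.2 := by
    have := congrArg (fun z : Dl n × I => (z.2 : ℝ)) h
    exact this
  rcases p.2 with ⟨i, hi⟩ | h0 | h0
  · have h3 := h1 i
    rw [hi, mul_zero, add_zero] at h3
    have h4 := mul_nonneg r'.2.1 (dl_nonneg p'.1.1 i)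
    have h5 : (1 - (r' : ℝ)) / (n + 1) ≤ (1 - (r : ℝ)) / (n + 1) := by linarith
    rw [div_le_div_iff_of_pos_right hn] at h5
    linarith
  · rw [h0] at h2
    have h4 := mul_nonneg r'.2.1 p'.1.2.2.1
    simp only [Set.Icc.coe_zero, mul_zero, add_zero] at h2
    linarith
  · rw [h0] at h2
    have h4 := mul_nonneg r'.2.1 (sub_nonneg.2 p'.1.2.2.2)
    simp only [Set.Icc.coe_one, mul_one] at h2
    nlinarith

theorem qq_surj (n : ℕ) : Function.Surjective (qq n) := by
  intro z
  have hn : (0 : ℝ) < n + 1 := by positivity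
  obtain ⟨i₀, -, hi₀⟩ := Finset.exists_min_image Finset.univ (fun i => z.1 i) ⟨0, Finset.mem_univ _⟩
  have hmin : ∀ i, z.1 i₀ ≤ z.1 i := fun i => hi₀ i (Finset.mem_univ i)
  set A : ℝ := 1 - (n + 1) * z.1 i₀ with hA
  set B : ℝ := |2 * (z.2 : ℝ) - 1| with hB
  have hA0 : 0 ≤ A := by
    have h1 : ∑ _i : Fin (n + 1), z.1 i₀ ≤ ∑ i, z.1 i := Finset.sum_le_sum fun i _ => hmin i
    rw [dl_sum, Finset.sum_const, Finset.card_univ, Fintype.card_fin, nsmul_eq_mul] at h1
    push_cast at h1
    linarith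
  have hA1 : A ≤ 1 := by
    have := mul_nonneg hn.le (dl_nonneg z.1 i₀)
    linarith
  have hB0 : 0 ≤ B := abs_nonneg _
  have hB1 : B ≤ 1 := by
    rw [hB, abs_le]
    have h1 := z.2.2.1
    have h2 := z.2.2.2
    constructor <;> linarith
  set ρ := max A B with hρ
  have hρ0 : 0 ≤ ρ := hA0.trans (le_max_left _ _)
  have hρ1 : ρ ≤ 1 := max_le hA1 hB1
  have hAρ : A ≤ ρ := le_max_left _ _
  have hBρ : |2 * (z.2 : ℝ) - 1| ≤ ρ := le_max_right _ _
  rw [abs_le] at hBρ
  rcases hρ0.eq_or_lt with h0 | h0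
  · -- the centre
    refine ⟨(⟨(z.1, 0), Or.inr (Or.inl rfl)⟩, 0), ?_⟩
    have hz : ∀ i, z.1 i = 1 / (n + 1) := by
      have h1 : ∀ i, 1 / (n + 1) ≤ z.1 i := by
        intro i
        have h2 : A = 0 := le_antisymm (by rw [h0]; exact hAρ) hA0
        rw [div_le_iff₀ hn]
        have := mul_le_mul_of_nonneg_left (hmin i) hn.le
        linarith
      intro i
      have h2 : ∑ _i : Fin (n + 1), (1 / (n + 1) : ℝ) = ∑ i, z.1 i := by
        rw [dl_sum, Finset.sum_const, Finset.card_univ, Fintype.card_fin, nsmul_eq_mul]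
        push_cast
        field_simp
      exact ((Finset.sum_eq_sum_iff_of_le fun i _ => h1 i).1 h2 i (Finset.mem_univ i)).symm
    refine Prod.ext (Subtype.ext (funext fun i => ?_)) (Subtype.ext ?_)
    · show (1 - ((0 : I) : ℝ)) / (n + 1) + ((0 : I) : ℝ) * z.1 i = z.1 i
      rw [Set.Icc.coe_zero, hz i]
      ring
    · show (1 - ((0 : I) : ℝ)) / 2 + ((0 : I) : ℝ) * ((0 : I) : ℝ) = z.2
      rw [Set.Icc.coe_zero]
      linarith [hBρ.1, hBρ.2]
  · -- the other points
    have hx0 : ∀ i, 0 ≤ (z.1 i - (1 - ρ) / (n + 1)) / ρ := by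
      intro i
      refine div_nonneg ?_ hρ0
      rw [sub_nonneg, div_le_iff₀ hn]
      have := mul_le_mul_of_nonneg_left (hmin i) hn.le
      linarith
    have hx1 : ∑ i, (z.1 i - (1 - ρ) / (n + 1)) / ρ = 1 := by
      rw [← Finset.sum_div, Finset.sum_sub_distrib, dl_sum, Finset.sum_const, Finset.card_univ,
        Fintype.card_fin, nsmul_eq_mul]
      push_cast
      field_simp
      ring
    have ht0 : 0 ≤ ((z.2 : ℝ) - (1 - ρ) / 2) / ρ := div_nonneg (by linarith) hρ0
    have ht1 : ((z.2 : ℝ) - (1 - ρ) / 2) / ρ ≤ 1 := by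
      rw [div_le_one h0]
      linarith
    let x : Dl n := ⟨fun i => (z.1 i - (1 - ρ) / (n + 1)) / ρ, hx0, hx1⟩
    let t : I := ⟨((z.2 : ℝ) - (1 - ρ) / 2) / ρ, ht0, ht1⟩
    have hbd : (x, t) ∈ Bd n := by
      rcases max_choice A B with h1 | h1
      · left
        refine ⟨i₀, ?_⟩
        show (z.1 i₀ - (1 - ρ) / (n + 1)) / ρ = 0
        rw [hρ, h1, hA]
        field_simp
        ring
      · right
        have h2 : ρ = |2 * (z.2 : ℝ) - 1| := by rw [hρ, h1]
        rcases abs_choice (2 * (z.2 : ℝ) - 1) with h3 | h3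
        · right
          apply Subtype.ext
          show ((z.2 : ℝ) - (1 - ρ) / 2) / ρ = 1
          rw [div_eq_one_iff_eq h0.ne']
          linarith
        · left
          apply Subtype.ext
          show ((z.2 : ℝ) - (1 - ρ) / 2) / ρ = 0
          rw [div_eq_zero_iff]
          left
          linarith
    refine ⟨(⟨(x, t), hbd⟩, ⟨ρ, hρ0, hρ1⟩), ?_⟩
    refine Prod.ext (Subtype.ext (funext fun i => ?_)) (Subtype.ext ?_)
    · show (1 - ρ) / (n + 1) + ρ * ((z.1 i - (1 - ρ) / (n + 1)) / ρ) = z.1 i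
      rw [mul_div_cancel₀ _ h0.ne']
      ring
    · show (1 - ρ) / 2 + ρ * (((z.2 : ℝ) - (1 - ρ) / 2) / ρ) = z.2
      rw [mul_div_cancel₀ _ h0.ne']
      ring

theorem t_EXT : S_EXT := by
  intro n Y Y' _ _ j hj c
  obtain ⟨y, ⟨H⟩⟩ := hj
  haveI : CompactSpace (Bd n) := isCompact_iff_compactSpace.1 (bd_closed n).isCompact
  let q : C(Bd n × I, Dl n × I) := ⟨qq n, qq_cont n⟩
  have hq : IsQuotientMap q := IsQuotientMap.of_surjective_continuous (qq_surj n) (qq_cont n)
  let g : C(Bd n × I, Y') := H.toContinuousMap.comp ⟨fun p => (σ p.2, c p.1), by fun_prop⟩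
  have hg : ∀ p : Bd n, ∀ r : I, g (p, r) = H (σ r, c p) := fun _ _ => rfl
  have hfac : Function.FactorsThrough g q := by
    rintro ⟨p, r⟩ ⟨p', r'⟩ h
    have h' : qq n (p, r) = qq n (p', r') := h
    have hr : (r : ℝ) = r' := le_antisymm (r_le h') (r_le h'.symm)
    have hr' : r = r' := Subtype.ext hr
    subst hr'
    rw [hg, hg]
    rcases eq_or_ne r 0 with h0 | h0
    · subst h0
      rw [unitInterval.symm_zero, H.apply_one, H.apply_one]
      rfl
    · have hr0 : (r : ℝ) ≠ 0 := fun h => h0 (Subtype.ext h)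
      have hp : p = p' := by
        apply Subtype.ext
        refine Prod.ext (Subtype.ext (funext fun i => ?_)) (Subtype.ext ?_)
        · have h1 := congrArg (fun z : Dl n × I => z.1 i) h'
          have h2 : (1 - (r : ℝ)) / (n + 1) + r * p.1.1 i = (1 - (r : ℝ)) / (n + 1) + r * p'.1.1 i := h1
          have h3 : (r : ℝ) * p.1.1 i = r * p'.1.1 i := by linarith
          exact mul_left_cancel₀ hr0 h3
        · have h1 := congrArg (fun z : Dl n × I => (z.2 : ℝ)) h'
          have h2 : (1 - (r : ℝ)) / 2 + r * p.1.2 = (1 - (r : ℝ)) / 2 + r * p'.1.2 := h1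
          have h3 : (r : ℝ) * p.1.2 = r * p'.1.2 := by linarith
          exact mul_left_cancel₀ hr0 h3
      rw [hp]
  refine ⟨hq.lift g hfac, fun p => ?_⟩
  have h1 : q (p, 1) = p.1 := by
    refine Prod.ext (Subtype.ext (funext fun i => ?_)) (Subtype.ext ?_)
    · show (1 - ((1 : I) : ℝ)) / (n + 1) + ((1 : I) : ℝ) * p.1.1 i = p.1.1 i
      rw [Set.Icc.coe_one]
      ring
    · show (1 - ((1 : I) : ℝ)) / 2 + ((1 : I) : ℝ) * (p.1.2 : ℝ) = p.1.2
      rw [Set.Icc.coe_one]
      ring
  have h2 : (hq.lift g hfac) (q (p, 1)) = g (p, 1) :=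
    DFunLike.congr_fun (hq.lift_comp g hfac) (p, 1)
  rw [h1] at h2
  rw [h2, hg, unitInterval.symm_one, H.apply_zero]

end Pool.Agent.E8helper77.EC
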